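import Mathlib

set_option autoImplicit false

open Set Ordinal

namespace Pool.Agent.Results.MP_8fd369_lc.Wins

/-- `ω₁` as a linear order. -/
abbrev W : Type := (ω₁ : Ordinal.{0}).ToType

/-- Aronszajn lines. -/
def IsAronszajnLine (A : Type) [LinearOrder A] : Prop :=
  Uncountable A ∧ IsEmpty (W ↪o A) ∧ IsEmpty (Wᵒᵈ ↪o A) ∧
    ∀ X : Set A, ¬ X.Countable → IsEmpty (X ↪o ℝ)

/-- The list `[a n, …, a 0]` of the moves of Player I up to turn `n`. -/
def hist {A : Type} (a : ℕ → A) : ℕ → List A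
  | 0 => [a 0]
  | n + 1 => a (n + 1) :: hist a n

/-- `σ` (which gives `b n` from the moves `a 0, …, a n` of Player I) is a winning strategy of
Player II in `BG(A, S)`: its answers are legal as long as Player I has moved legally, and no legal
play has a point of `S` between all `a n` and all `b n`. -/
def WinsII {A : Type} [LinearOrder A] (S : Set A) (σ : List A → A) : Prop :=
  ∀ a : ℕ → A, a 0 < σ (hist a 0) ∧
    (∀ n, (∀ k ≤ n, a k < a (k + 1) ∧ a (k + 1) < σ (hist a k)) →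
      a (n + 1) < σ (hist a (n + 1)) ∧ σ (hist a (n + 1)) < σ (hist a n)) ∧
    ((∀ k, a k < a (k + 1) ∧ a (k + 1) < σ (hist a k)) →
      ¬ ∃ x ∈ S, ∀ n, a n < x ∧ x < σ (hist a n))

lemma cIio (α : W) : (Iio α).Countable := by
  rw [Cardinal.countable_iff_lt_aleph_one]
  simpa using Cardinal.mk_Iio_lt α (by simp)

lemma cIic (α : W) : (Iic α).Countable := Iio_insert (a := α) ▸ (cIio α).insert α

instance : Uncountable W := by
  rw [← Cardinal.aleph0_lt_mk_iff]; simp [Cardinal.aleph0_lt_aleph_one]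

lemma bdd {S : Set W} (h : S.Countable) : ∃ β, ∀ a ∈ S, a < β := by
  by_contra hn
  push Not at hn
  exact not_countable_univ ((h.biUnion fun a _ => cIic a).mono fun b _ =>
    let ⟨a, ha, hb⟩ := hn b; mem_biUnion ha hb)

lemma exists_e : ∃ e : W → W → ℕ, (∀ α m, {ξ | ξ < α ∧ e α ξ ≤ m}.Finite) ∧
    ∀ α β, {ξ | ξ < α ∧ ξ < β ∧ e α ξ ≠ e β ξ}.Finite := by
  classical
  have : ∀ α : W, ∃ s : ℕ → W, Iio α ⊆ range s := fun α => by
    obtain ⟨s, hs⟩ := (cIic α).exists_eq_range ⟨α, mem_Iic.2 le_rfl⟩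
    exact ⟨s, hs ▸ Iio_subset_Iic_self⟩
  choose s hs using this
  obtain ⟨e, he⟩ : ∃ e : W → W → ℕ, ∀ α ξ, e α ξ = if h : ∃ n, ξ < s α n ∧ s α n < α then
      max (Nat.find h) (e (s α (Nat.find h)) ξ) else 0 :=
    ⟨(wellFounded_lt (α := W)).fix fun α ih ξ => if h : ∃ n, ξ < s α n ∧ s α n < α then
      max (Nat.find h) (ih _ (Nat.find_spec h).2 ξ) else 0, fun α ξ => by rw [WellFounded.fix_eq]⟩
  have key : ∀ α, (∀ m, {ξ | ξ < α ∧ e α ξ ≤ m}.Finite) ∧
      ∀ β < α, {ξ | ξ < α ∧ ξ < β ∧ e α ξ ≠ e β ξ}.Finite := by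
    intro α
    induction α using WellFoundedLT.induction with
    | ind α ih =>
    have coh : ∀ γ < α, ∀ β < α, {ξ | ξ < γ ∧ ξ < β ∧ e γ ξ ≠ e β ξ}.Finite := fun γ hγ β hβ => by
      rcases lt_trichotomy γ β with h | rfl | h
      · exact ((ih β hβ).2 γ h).subset fun ξ h => ⟨h.2.1, h.1, h.2.2.symm⟩
      · simp
      · exact (ih γ hγ).2 β h
    have fin : ∀ (m : ℕ) (T : ℕ → Set W), (∀ n, s α n < α → (T n).Finite) →
        (⋃ n ∈ {n | n ≤ m ∧ s α n < α}, T n).Finite := fun m T hT =>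
      ((finite_Iic m).subset fun n hn => hn.1).biUnion fun n hn => hT n hn.2
    refine ⟨fun m => ?_, fun β hβ => ?_⟩
    · have h0 : {ξ | ξ < α ∧ ¬ ∃ n, ξ < s α n ∧ s α n < α}.Subsingleton := fun a ha b hb => by
        obtain ⟨i, rfl⟩ := hs α ha.1
        obtain ⟨j, rfl⟩ := hs α hb.1
        exact le_antisymm (not_lt.1 fun h => hb.2 ⟨i, h, ha.1⟩) (not_lt.1 fun h => ha.2 ⟨j, h, hb.1⟩)
      refine (h0.finite.union (fin m _ fun n hn => (ih _ hn).1 m)).subset fun ξ hξ => ?_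
      by_cases h : ∃ n, ξ < s α n ∧ s α n < α
      · have := hξ.2
        rw [he, dif_pos h, max_le_iff] at this
        exact Or.inr (mem_biUnion ⟨this.1, (Nat.find_spec h).2⟩ ⟨(Nat.find_spec h).1, this.2⟩)
      · exact Or.inl ⟨hξ.1, h⟩
    · obtain ⟨k, rfl⟩ := hs α hβ
      refine (fin k _ fun n hn => ((ih _ hn).1 n).union (coh _ hn _ hβ)).subset fun ξ hξ => ?_
      have h : ∃ n, ξ < s α n ∧ s α n < α := ⟨k, hξ.2.1, hβ⟩
      have := hξ.2.2
      rw [he, dif_pos h] at this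
      refine mem_biUnion ⟨Nat.find_min' h ⟨hξ.2.1, hβ⟩, (Nat.find_spec h).2⟩ ?_
      rcases le_total (e (s α (Nat.find h)) ξ) (Nat.find h) with h' | h'
      · exact Or.inl ⟨(Nat.find_spec h).1, h'⟩
      · exact Or.inr ⟨(Nat.find_spec h).1, hξ.2.1, by rwa [max_eq_right h'] at this⟩
  refine ⟨e, fun α => (key α).1, fun α β => ?_⟩
  rcases lt_trichotomy α β with h | rfl | h
  · exact ((key β).2 α h).subset fun ξ h => ⟨h.2.1, h.1, h.2.2.symm⟩
  · simp
  · exact (key α).2 β h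

noncomputable def e : W → W → ℕ := exists_e.choose

abbrev F := Lex (W → WithBot ℤ)

def Node (α : W) (s : F) : Prop :=
  (∀ ξ, s ξ = ⊥ ↔ α ≤ ξ) ∧ {ξ | ξ < α ∧ s ξ ≠ ((e α ξ : ℤ) : WithBot ℤ)}.Finite

def A : Type := {s : F // ∃ α, Node α s}

noncomputable instance : LinearOrder A := inferInstanceAs (LinearOrder {s : F // ∃ α, Node α s})

noncomputable def ht (s : A) : W := s.2.choose

lemma node (s : A) : Node (ht s) s.1 := s.2.choose_spec

lemma lt_iff {s t : A} : s < t ↔ ∃ i, (∀ j < i, s.1 j = t.1 j) ∧ s.1 i < t.1 i := Iff.rfl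

noncomputable def res (β : W) (s : F) : F := toLex fun ξ => if ξ < β then s ξ else ⊥

lemma res_node {α β : W} {s : F} (h : Node α s) : Node (min α β) (res β s) := by
  refine ⟨fun ξ => ?_, (h.2.union (exists_e.choose_spec.2 α (min α β))).subset fun ξ hξ => ?_⟩
  · by_cases hβ : ξ < β
    · simp [res, hβ, h.1, hβ.not_ge]
    · simp [res, hβ, not_lt.1 hβ]
  · have := lt_min_iff.1 hξ.1
    by_cases h' : s ξ = ((e α ξ : ℤ) : WithBot ℤ)
    · exact Or.inr ⟨this.1, hξ.1, fun h'' => hξ.2 (by simp only [res, Pi.toLex_apply, this.2, h']; exact congrArg _ (congrArg _ h''))⟩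
    · exact Or.inl ⟨this.1, h'⟩

lemma res_mono (β : W) : Monotone fun s : A => res β s.1 := fun s t h => by
  rcases h.eq_or_lt with rfl | ⟨i, h1, h2⟩
  · rfl
  · by_cases hi : i < β
    · exact le_of_lt ⟨i, fun j hj => by simp [res, h1 j hj], by simpa [res, hi] using h2⟩
    · refine le_of_eq (funext fun j => ?_)
      by_cases hj : j < β
      · simp [res, hj, h1 j (hj.trans_le (not_lt.1 hi))]
      · simp [res, hj]

lemma lev (β : W) : {s : F | ∃ α ≤ β, Node α s}.Countable := by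
  classical
  have : ∀ α, {s : F | Node α s}.Countable := fun α => by
    have h0 : (⋃ D ∈ {D | D.Finite ∧ D ⊆ Iio α}, range fun v : D → WithBot ℤ => (toLex fun ξ =>
        if h : ξ ∈ D then v ⟨ξ, h⟩ else if ξ < α then ((e α ξ : ℤ) : WithBot ℤ) else ⊥ : F)
          ).Countable := (countable_setOf_finite_subset (cIio α)).biUnion fun D hD => by
      haveI := hD.1.to_subtype
      exact countable_range _
    refine h0.mono fun s hs => ?_
    refine mem_biUnion (x := {ξ | ξ < α ∧ s ξ ≠ ((e α ξ : ℤ) : WithBot ℤ)})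
      (show _ ∧ _ from ⟨hs.2, fun _ h => h.1⟩) (mem_range.2 ⟨fun ξ => s ξ, funext fun ξ => ?_⟩)
    · simp only [Pi.toLex_apply]
      split_ifs with h1 h2
      · rfl
      · exact (not_not.1 fun h => h1 ⟨h2, Ne.symm h⟩)
      · exact ((hs.1 ξ).2 (not_lt.1 h2)).symm
  exact ((cIic β).biUnion fun α _ => this α).mono fun s ⟨α, h1, h2⟩ => mem_biUnion h1 h2

lemma lev' (β : W) : {s : A | ht s ≤ β}.Countable :=
  ((lev β).preimage (f := fun s : A => s.1) Subtype.val_injective).mono fun s hs =>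
    show ∃ α ≤ β, Node α s.1 from ⟨_, hs, node s⟩

lemma fiber {ι : Type} {S : Set ι} (hS : ¬ S.Countable) {κ : Type} (f : ι → κ) {T : Set κ}
    (hT : T.Countable) (h : ∀ i, f i ∈ T) : ∃ v, ¬ {i ∈ S | f i = v}.Countable := by
  by_contra hn
  push Not at hn
  exact hS ((hT.biUnion fun v _ => hn v).mono fun i hi =>
    mem_iUnion₂.2 ⟨f i, h i, show i ∈ S ∧ f i = f i from ⟨hi, rfl⟩⟩)

lemma no_chain (x : W → A) (hx : Function.Injective x) (hm : Monotone x ∨ Antitone x) : False := by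
  have ev : ∀ β, ∃ i0, ∀ i, i0 ≤ i → res β (x i).1 = res β (x i0).1 := fun β => by
    obtain ⟨v, hv⟩ := fiber not_countable_univ (fun i => res β (x i).1) (lev β)
      fun i => ⟨_, min_le_right _ _, res_node (node _)⟩
    have hu : ∀ i, ∃ k, i ≤ k ∧ res β (x k).1 = v := fun i => by
      by_contra hn
      push Not at hn
      exact hv ((cIic i).mono fun k hk => le_of_not_ge fun h => hn k h hk.2)
    obtain ⟨i0, -, h0⟩ := hu β
    refine ⟨i0, fun i hi => ?_⟩
    obtain ⟨k, hk, h1⟩ := hu i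
    rcases hm with hm | hm
    · exact le_antisymm ((res_mono β (hm hk)).trans_eq (h1.trans h0.symm)) (res_mono β (hm hi))
    · exact le_antisymm (res_mono β (hm hi)) ((h0.trans h1.symm).trans_le (res_mono β (hm hk)))
  have ev' : ∀ ξ, ∃ i0, ∀ i, i0 ≤ i → (x i).1 ξ = (x i0).1 ξ := fun ξ => by
    obtain ⟨β, hβ⟩ := bdd (countable_singleton ξ)
    obtain ⟨i0, h⟩ := ev β
    exact ⟨i0, fun i hi => by simpa [res, hβ ξ rfl] using congrFun (h i hi) ξ⟩
  choose g hg using ev'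
  obtain ⟨c, hc⟩ := fiber not_countable_univ (fun ξ => (x (g ξ)).1 ξ) countable_univ fun _ => trivial
  obtain ⟨D, hD, hDi, hDc⟩ : ∃ D ⊆ {ξ ∈ Set.univ | (x (g ξ)).1 ξ = c}, D.Infinite ∧ D.Countable := by
    have hi : {ξ ∈ Set.univ | (x (g ξ)).1 ξ = c}.Infinite := fun h => hc h.countable
    exact ⟨range fun n => (hi.natEmbedding _ n).1, range_subset_iff.2 fun n => (hi.natEmbedding _ n).2,
      infinite_range_of_injective (Subtype.val_injective.comp (hi.natEmbedding _).injective),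
      countable_range _⟩
  obtain ⟨β, hβ⟩ := bdd (hDc.union (hDc.image g))
  obtain ⟨i, hi, hi'⟩ : ∃ i, β ≤ i ∧ β < ht (x i) := by
    by_contra hn
    push Not at hn
    exact not_countable_univ (((cIic β).union ((lev' β).preimage hx)).mono fun i _ =>
      (le_total i β).imp id (hn i))
  have h1 : ∀ ξ ∈ D, ξ < ht (x i) ∧ (x i).1 ξ = c := fun ξ hξ =>
    ⟨(hβ ξ (Or.inl hξ)).trans hi',
      (hg ξ i ((hβ _ (Or.inr ⟨ξ, hξ, rfl⟩)).le.trans hi)).trans (hD hξ).2⟩
  refine hDi (((node (x i)).2.union (exists_e.choose_spec.1 (ht (x i))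
    (c.unbotD 0).toNat)).subset fun ξ hξ => ?_)
  by_cases h : (x i).1 ξ = ((e (ht (x i)) ξ : ℤ) : WithBot ℤ)
  · exact Or.inr ⟨(h1 ξ hξ).1, by rw [← (h1 ξ hξ).2, h]; simp [e]⟩
  · exact Or.inl ⟨(h1 ξ hξ).1, h⟩

lemma no_real (X : Set A) (hX : ¬ X.Countable) (φ : X ↪o ℝ) : False := by
  have : ∀ pq : ℚ × ℚ, ∃ o : Option X, (∃ d : X, pq.1 < φ d ∧ φ d < pq.2) →
      ∃ d, o = some d ∧ pq.1 < φ d ∧ φ d < pq.2 := fun pq => by
    by_cases h : ∃ d : X, pq.1 < φ d ∧ φ d < pq.2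
    · obtain ⟨d, hd⟩ := h; exact ⟨some d, fun _ => ⟨d, rfl, hd⟩⟩
    · exact ⟨none, fun h' => absurd h' h⟩
  choose o ho using this
  obtain ⟨β, hβ⟩ := bdd (((countable_range o).preimage (Option.some_injective X)).image
    fun d : X => ht d.1)
  obtain ⟨v, hv⟩ := fiber (S := X \ {s | ht s ≤ β})
    (fun h => hX ((h.union (lev' β)).mono (subset_diff_union _ _))) (fun s => res β s.1) (lev β)
      fun s => ⟨_, min_le_right _ _, res_node (node _)⟩
  obtain ⟨T, hT, hc⟩ := Set.Infinite.exists_subset_card_eq (fun h : Set.Finite _ => hv h.countable) 3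
  let y := T.orderEmbOfFin hc
  have hy := fun i => hT (T.orderEmbOfFin_mem hc i)
  obtain ⟨p, p1, p2⟩ := exists_rat_btwn
    (φ.lt_iff_lt.2 (show (⟨y 0, (hy 0).1.1⟩ : X) < ⟨y 1, (hy 1).1.1⟩ from y.strictMono (by decide)))
  obtain ⟨q, q1, q2⟩ := exists_rat_btwn
    (φ.lt_iff_lt.2 (show (⟨y 1, (hy 1).1.1⟩ : X) < ⟨y 2, (hy 2).1.1⟩ from y.strictMono (by decide)))
  obtain ⟨d, hd, d1, d2⟩ := ho (p, q) ⟨_, p2, q1⟩
  have hdβ : ht d.1 < β := hβ _ ⟨d, ⟨_, hd⟩, rfl⟩
  have a1 : y 0 ≤ d.1 := (φ.lt_iff_lt.1 (p1.trans d1)).le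
  have a2 : d.1 ≤ y 2 := (φ.lt_iff_lt.1 (d2.trans q2)).le
  have h5 : res β (y 0).1 = res β d.1.1 := le_antisymm (res_mono β a1)
    ((res_mono β a2).trans_eq ((hy 2).2.trans (hy 0).2.symm))
  have := congrFun h5 (ht d.1)
  simp only [res, Pi.toLex_apply, hdβ, if_true] at this
  rw [((node d.1).1 _).2 le_rfl, (node (y 0)).1] at this
  exact (hy 0).1.2 (this.trans hdβ.le)

lemma ext_node (a : A) (m : ℤ) : ∃ α, Node α (toLex (Function.update a.1 (ht a) m)) := by
  classical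
  obtain ⟨γ, hγ, hmin⟩ := (wellFounded_lt (α := W)).has_min (Ioi (ht a))
    ((bdd (countable_singleton (ht a))).imp fun β h => h _ rfl)
  refine ⟨γ, fun ξ => ?_, (((node a).2.union (exists_e.choose_spec.2 (ht a) γ)).insert (ht a)).subset
    fun ξ hξ => ?_⟩
  · by_cases h : ξ = ht a
    · simp [h, hγ.out.not_ge]
    · simp only [Pi.toLex_apply, Function.update_of_ne h, (node a).1]
      exact ⟨fun h' => not_lt.1 (hmin ξ (lt_of_le_of_ne h' (Ne.symm h))), fun h' => hγ.out.le.trans h'⟩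
  · by_cases h : ξ = ht a
    · exact Or.inl h
    · have h1 : ξ < ht a := lt_of_le_of_ne (not_lt.1 fun h' => hmin ξ h' hξ.1) h
      have h2 := hξ.2
      simp only [Pi.toLex_apply, Function.update_of_ne h] at h2
      by_cases h' : a.1 ξ = ((e (ht a) ξ : ℤ) : WithBot ℤ)
      · exact Or.inr (Or.inr ⟨h1, hξ.1, fun h'' => h2 (h'.trans (congrArg _ (congrArg _ h'')))⟩)
      · exact Or.inr (Or.inl ⟨h1, h'⟩)

noncomputable def ext (a : A) (m : ℤ) : A := ⟨_, ext_node a m⟩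

lemma ext_ne (a : A) (m : ℤ) {j : W} (h : j ≠ ht a) : (ext a m).1 j = a.1 j :=
  Function.update_of_ne h _ _

lemma ext_eq (a : A) (m : ℤ) : (ext a m).1 (ht a) = m := Function.update_self ..

lemma lt_ext (a : A) (m : ℤ) : a < ext a m :=
  ⟨ht a, fun _ hj => (ext_ne a m hj.ne).symm, by
    rw [ext_eq, ((node a).1 _).2 le_rfl]; exact WithBot.bot_lt_coe m⟩

lemma idx_le {a b : A} {i : W} (h1 : ∀ j < i, a.1 j = b.1 j) (h2 : a.1 i < b.1 i) : i ≤ ht a :=
  not_lt.1 fun h => h2.ne_bot (((node b).1 _).2 ((((node b).1 _).1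
    ((h1 _ h).symm.trans (((node a).1 _).2 le_rfl))).trans h.le))

lemma exists_g (a b : A) : ∃ m < 0, a < b → ext a m < b := by
  by_cases h : a < b
  · obtain ⟨i, h1, h2⟩ := h
    rcases (idx_le h1 h2).eq_or_lt with rfl | hi
    · obtain ⟨k, hk⟩ := WithBot.ne_bot_iff_exists.1 h2.ne_bot
      refine ⟨min (-1) (k - 1), by omega, fun _ => ⟨ht a, fun j hj =>
        (ext_ne a _ hj.ne).trans (h1 j hj), ?_⟩⟩
      rw [ext_eq, ← hk]; exact WithBot.coe_lt_coe.2 (by omega)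
    · exact ⟨-1, by norm_num, fun _ => ⟨i, fun j hj => (ext_ne a _ (hj.trans hi).ne).trans (h1 j hj),
        (ext_ne a _ hi.ne).trans_lt h2⟩⟩
  · exact ⟨-1, by norm_num, fun h' => absurd h' h⟩

lemma between {a x : A} {m : ℤ} (h1 : a < x) (h2 : x < ext a m) :
    ht a < ht x ∧ x.1 (ht a) < m := by
  obtain ⟨i, a1, a2⟩ := h1
  rcases (idx_le a1 a2).eq_or_lt with rfl | hi
  · refine ⟨not_le.1 fun h => a2.ne_bot (((node x).1 _).2 h), ?_⟩
    obtain ⟨k, b1, b2⟩ := h2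
    rcases lt_trichotomy k (ht a) with h | rfl | h
    · exact absurd b2 (by rw [ext_ne a m h.ne, a1 k h]; exact lt_irrefl _)
    · rwa [ext_eq] at b2
    · exact absurd (by rw [ext_ne a m h.ne', ((node a).1 _).2 h.le]) b2.ne_bot
  · exact absurd h2 (not_lt.2 (le_of_lt ⟨i, fun j hj =>
      (ext_ne a _ (hj.trans hi).ne).trans (a1 j hj), (ext_ne a _ hi.ne).trans_lt a2⟩))

theorem result : ∃ (L : Type) (_ : LinearOrder L), DenselyOrdered L ∧ IsAronszajnLine L ∧
    ∀ S : Set L, ∃ σ : List L → L, WinsII S σ := by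
  classical
  choose g hg hg' using exists_g
  have base : ∀ α : W, Node α (toLex fun ξ => if ξ < α then ((e α ξ : ℤ) : WithBot ℤ) else ⊥) :=
    fun α => ⟨fun ξ => by
      by_cases h : ξ < α
      · simp [h, h.not_ge]
      · simp [h, not_lt.1 h],
      finite_empty.subset fun ξ hξ => hξ.2 (by simp [hξ.1])⟩
  refine ⟨A, inferInstance, ⟨fun a b h => ⟨_, lt_ext a _, hg' a b h⟩⟩, ⟨?_,
    ⟨fun φ => no_chain φ φ.injective (Or.inl φ.monotone)⟩,
    ⟨fun φ => no_chain (fun i => φ (OrderDual.toDual i)) φ.injective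
      (Or.inr fun _ _ h => φ.monotone h)⟩, fun X hX => ⟨no_real X hX⟩⟩, fun S => ?_⟩
  · refine Function.Surjective.uncountable (f := ht) fun α => ⟨⟨_, α, base α⟩, ?_⟩
    have h := (node ⟨_, α, base α⟩).1
    exact le_antisymm ((h _).1 (((base α).1 _).2 le_rfl)) (((base α).1 _).1 ((h _).2 le_rfl))
  obtain ⟨α0⟩ : Nonempty W := inferInstance
  obtain ⟨σ, hσ1⟩ : ∃ σ : List A → A, ∀ a l, σ (a :: l) = ext a (g a (σ l)) :=
    ⟨fun l => l.rec ⟨_, α0, base α0⟩ fun a _ b => ext a (g a b), fun _ _ => rfl⟩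
  refine ⟨σ, fun a => ⟨by rw [hist, hσ1]; exact lt_ext _ _, fun n hn => by
    rw [hist, hσ1]; exact ⟨lt_ext _ _, hg' _ _ (hn n le_rfl).2⟩, fun hl ⟨x, _, hx⟩ => ?_⟩⟩
  have hσ : ∀ n, ∃ m < 0, σ (hist a n) = ext (a n) m := fun n => by
    cases n <;> exact ⟨_, hg _ _, hσ1 _ _⟩
  choose m hm hσ using hσ
  simp only [hσ] at hl hx
  refine infinite_of_injective_forall_mem (strictMono_nat_of_lt_succ
    fun n => (between (hl n).1 (hl n).2).1).injective (fun n => ?_) (node x).2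
  have := between (hx n).1 (hx n).2
  refine ⟨this.1, fun h => ?_⟩
  have h2 := this.2
  rw [h, WithBot.coe_lt_coe] at h2
  have := hm n
  omega

end Pool.Agent.Results.MP_8fd369_lc.Wins
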